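import Pool.Agent.H26.Lib.R_seed8.W353.AB.Transfer
import Pool.Agent.H26.Lib.R_seed8.W353.AB.QuadLog
import Pool.Agent.H26.Lib.R_seed8.W353.TP.VD
import Pool.Agent.H46.Lib.R_seed8.H341R2.NF.TwistOrders
import Pool.Agent.H26.Lib.R_seed8.H126U.End

/-! Twists of an elliptic curve over all number fields containing `K`. -/

set_option autoImplicit false

namespace Pool.Agent.W353.AB

open Complex Filter Topology ComplexConjugate NumberField IsDedekindDomain Pool.Agent.H341R2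
  Asymptotics Pool.Agent.W353.TP Pool.Agent.H341R2.EC
open Pool.Agent.H921R2.TatePole (nm two_le_nm R hc R_eq_hc R_le kerPrime hom_finite C0)
open Pool.Agent.H126T (order_limit)

theorem csum_congr {k k' : Type*} [Field k] [Fintype k] [DecidableEq k] [Field k'] [Fintype k']
    [DecidableEq k'] (e : k ≃+* k') (c c' : k) : csum (e c) (e c') = csum c c' := by
  unfold csum
  refine (Fintype.sum_equiv e.toEquiv _ _ fun x => ?_).symm
  rw [← quadraticChar_congr e]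
  congr 1
  change e _ = (cub (e c) (e c')).eval (e x)
  rw [cub_eval, cub_eval]
  simp only [map_sub, map_mul, map_pow, map_ofNat]

section
variable {K F : Type} [Field K] [NumberField K] [Field F] [NumberField F]

/-- the character sum of the curve over a prime field -/
noncomputable def csH (P Q : 𝓞 K) (x : HX K) : ℤ :=
  haveI : Fact (x.1 : ℕ).Prime := ⟨x.1.2⟩
  csum (x.2 P) (x.2 Q)

theorem csumv_ker (ι : 𝓞 K →+* 𝓞 F) (P Q : 𝓞 K) (p : Nat.Primes) (ψ : 𝓞 F →+* ZMod (p : ℕ)) :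
    csumv (ι P) (ι Q) (kerPrime p ψ).1.1 = csH P Q ⟨p, ψ.comp ι⟩ := by
  have : Fact (p : ℕ).Prime := ⟨p.2⟩
  let e : 𝓞 F ⧸ (kerPrime p ψ).1.1.asIdeal ≃+* ZMod (p : ℕ) :=
    RingHom.quotientKerEquivOfSurjective (ZMod.ringHom_surjective ψ)
  have he : ∀ a : 𝓞 F, e (Ideal.Quotient.mk _ a) = ψ a := fun a => rfl
  unfold csumv csH
  rw [← csum_congr e, he, he]
  rfl

open Classical in
/-- the untwisted coefficients over the base field -/
noncomputable def tEH (P Q : 𝓞 K) (x : HX K) : ℂ :=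
  if x.2 6 ≠ 0 ∧ x.2 (P ^ 3 - Q ^ 2) ≠ 0 then
    -(csH P Q x : ℂ) * ((Real.sqrt (x.1 : ℕ) : ℝ) : ℂ)⁻¹ else 0

open Classical in
/-- the untwisted coefficients -/
noncomputable def tE (P Q : 𝓞 F) (v : HeightOneSpectrum (𝓞 F)) : ℂ :=
  if (6 : 𝓞 F) ∉ v.asIdeal ∧ P ^ 3 - Q ^ 2 ∉ v.asIdeal then
    -(csumv P Q v : ℂ) * ((Real.sqrt (nm v) : ℝ) : ℂ)⁻¹ else 0

theorem tE_ker (ι : 𝓞 K →+* 𝓞 F) (P Q : 𝓞 K) (p : Nat.Primes) (ψ : 𝓞 F →+* ZMod (p : ℕ)) :
    tE (ι P) (ι Q) (kerPrime p ψ).1.1 = tEH P Q ⟨p, ψ.comp ι⟩ := by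
  unfold tE tEH
  have h1 : ((6 : 𝓞 F) ∉ (kerPrime p ψ).1.1.asIdeal ∧
      (ι P) ^ 3 - (ι Q) ^ 2 ∉ (kerPrime p ψ).1.1.asIdeal) ↔
      ((ψ.comp ι) 6 ≠ 0 ∧ (ψ.comp ι) (P ^ 3 - Q ^ 2) ≠ 0) := by
    rw [mem_ker_iff, mem_ker_iff, RingHom.comp_apply, RingHom.comp_apply, map_ofNat ι, map_sub ι,
      map_pow ι, map_pow ι]
  by_cases h : ((ψ.comp ι) 6 ≠ 0 ∧ (ψ.comp ι) (P ^ 3 - Q ^ 2) ≠ 0)
  · rw [if_pos (h1.2 h), if_pos h, nm_kerPrime, csumv_ker]
  · rw [if_neg (fun h' => h (h1.1 h')), if_neg h]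

theorem norm_tE (P Q : 𝓞 F) (v : HeightOneSpectrum (𝓞 F)) : ‖tE P Q v‖ ≤ 2 := by
  have hsq0 : 0 < Real.sqrt (nm v) :=
    Real.sqrt_pos.2 (by exact_mod_cast (by have := two_le_nm v; omega : 0 < nm v))
  unfold tE
  split_ifs with h1
  · rw [norm_mul, norm_neg, norm_inv, Complex.norm_intCast, Complex.norm_real,
      Real.norm_eq_abs, abs_of_pos hsq0]
    have h2 := csumv_bound (P := P) (Q := Q) h1.1 h1.2
    calc |(csumv P Q v : ℝ)| * (Real.sqrt (nm v))⁻¹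
        ≤ 2 * Real.sqrt (nm v) * (Real.sqrt (nm v))⁻¹ :=
          mul_le_mul_of_nonneg_right h2 (inv_nonneg.2 hsq0.le)
      _ = 2 := by rw [mul_assoc, mul_inv_cancel₀ hsq0.ne', mul_one]
  · simp

theorem norm_tEH (P Q : 𝓞 K) (x : HX K) : ‖tEH P Q x‖ ≤ 2 := by
  rcases x with ⟨p, φ⟩
  have h1 := tE_ker (RingHom.id (𝓞 K)) P Q p φ
  rw [RingHom.comp_id] at h1
  rw [← h1]
  exact norm_tE _ _ _

/-- the system of an elliptic curve -/
noncomputable def syE (P Q : 𝓞 K) : Sy K where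
  ι := Unit
  P := {()}
  r := 1
  A _ := {0}
  T _ := tEH P Q
  b _ := 2
  hb _ _ := by norm_num
  hT _ _ x := norm_tEH P Q x

end

section
variable {K F : Type} [Field K] [NumberField K] [Field F] [NumberField F] [Algebra K F]

/-- the Euler product of the problem -/
noncomputable def LE (M : HeightOneSpectrum (𝓞 F) → WeierstrassCurve (𝓞 F)) (s : ℂ) : ℂ :=
  ∏' p, ((sysK F).lfac (fun v => (trc M v : ℂ)) (dlt M) p s)⁻¹

theorem size_E (E : WeierstrassCurve K) {l P Q : 𝓞 K} (hl : l ≠ 0)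
    (hP : (P : K) = (l : K) ^ 4 * E.c₄) (hQ : (Q : K) = (l : K) ^ 6 * E.c₆)
    (hD : P ^ 3 - Q ^ 2 ≠ 0) {d : 𝓞 F} (hd : d ≠ 0)
    (M : HeightOneSpectrum (𝓞 F) → WeierstrassCurve (𝓞 F))
    (hM : ∀ v, IsMinAt (twist (E.map (algebraMap K F)) (d : F)) v (M v)) (τ : ℝ) :
    (∀ᶠ ε : ℝ in 𝓝[>] 0, LE M (3 / 2 + τ * I + ε) ≠ 0) ∧
    (syE P Q).IsSize (F := F) (fun _ => d) τ
      (fun ε => Real.log ‖LE M (3 / 2 + τ * I + ε)‖ / Real.log (1 / ε)) := by
  classical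
  set ι : 𝓞 K →+* 𝓞 F := algebraMap (𝓞 K) (𝓞 F) with hι
  have hιinj : Function.Injective ι := alg_inj
  have hιK : ∀ a : 𝓞 K, ((ι a : 𝓞 F) : F) = algebraMap K F (a : K) := fun a => rfl
  have hl' : ι l ≠ 0 := fun h => hl (hιinj (by rw [h, map_zero]))
  have hP' : ((ι P : 𝓞 F) : F) = ((ι l : 𝓞 F) : F) ^ 4 * (E.map (algebraMap K F)).c₄ := by
    rw [hιK, hP, hιK, WeierstrassCurve.map_c₄, map_mul, map_pow]
  have hQ' : ((ι Q : 𝓞 F) : F) = ((ι l : 𝓞 F) : F) ^ 6 * (E.map (algebraMap K F)).c₆ := by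
    rw [hιK, hQ, hιK, WeierstrassCurve.map_c₆, map_mul, map_pow]
  have hD' : (ι P) ^ 3 - (ι Q) ^ 2 ≠ 0 := by
    rw [← map_pow, ← map_pow, ← map_sub]
    exact fun h => hD (hιinj (by rw [h, map_zero]))
  set Good : HeightOneSpectrum (𝓞 F) → Prop := fun v =>
    (6 : 𝓞 F) ∉ v.asIdeal ∧ d ∉ v.asIdeal ∧ (ι P) ^ 3 - (ι Q) ^ 2 ∉ v.asIdeal with hGood
  have hfin : {v | ¬ Good v}.Finite := by
    have h6 : (6 : 𝓞 F) ≠ 0 := by norm_num
    refine (((finite_mem h6).union (finite_mem hd)).union (finite_mem hD')).subset ?_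
    intro v hv
    have hv' : ¬ Good v := hv
    rw [hGood] at hv'
    simp only [not_and_or, not_not] at hv'
    rcases hv' with h | h | h
    · exact Or.inl (Or.inl h)
    · exact Or.inl (Or.inr h)
    · exact Or.inr h
  have htr : ∀ v, Good v → trc M v = -(chi d v * csumv (ι P) (ι Q) v) := by
    intro v hv
    have := (count_good hl' hP' hQ' (hM v) hv.1 hv.2.1 hv.2.2).2
    unfold trc
    rw [this]
    ring
  obtain ⟨C', hC'⟩ := quad_log (sysK F) (Good := Good) hfin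
    (fun v => (trc M v : ℂ)) (dlt M) (by
      intro v hv
      rw [htr v hv]
      push_cast
      rw [norm_neg, norm_mul, Complex.norm_intCast, Complex.norm_intCast]
      have h1 := csumv_bound (P := ι P) (Q := ι Q) hv.1 hv.2.2
      have h2 : |(chi d v : ℝ)| ≤ 1 := chi_abs d v
      calc |(chi d v : ℝ)| * |(csumv (ι P) (ι Q) v : ℝ)| ≤ 1 * (2 * Real.sqrt (nm v)) :=
            mul_le_mul h2 h1 (abs_nonneg _) (by norm_num)
        _ = 2 * Real.sqrt (nm v) := one_mul _) (by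
      intro v hv
      have := (count_good hl' hP' hQ' (hM v) hv.1 hv.2.1 hv.2.2).1
      unfold dlt
      rw [if_neg this]) (by
      intro v hv
      exact five_le_v hv.1) (by
      intro v _
      rw [Complex.norm_intCast]
      have h2 : |trc M v| ≤ nm v := trc_le M v
      have h3 : (|(trc M v : ℤ)| : ℝ) ≤ ((nm v : ℕ) : ℝ) := by exact_mod_cast h2
      exact h3) (by
      intro v _
      unfold dlt
      split_ifs <;> simp) τ
  refine ⟨hC'.mono fun ε h => h.1, ?_⟩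
  set w : HeightOneSpectrum (𝓞 F) → ℂ := fun v =>
    (chi d v : ℂ) * ((nm v : ℕ) : ℂ) ^ ((τ : ℂ) * I) with hw
  have hcoef : ∀ v, (if Good v then
        (trc M v : ℂ) * ((Real.sqrt ((sysK F).N v) : ℝ) : ℂ)⁻¹ *
          (((sysK F).N v : ℕ) : ℂ) ^ (-(τ * I)) else 0) = tE (ι P) (ι Q) v * conj (w v) := by
    intro v
    have hconj : conj (w v) = (chi d v : ℂ) * ((nm v : ℕ) : ℂ) ^ (-((τ : ℂ) * I)) := by
      rw [hw]
      exact conj_w d v τ
    rw [hconj]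
    unfold tE
    by_cases hv : Good v
    · rw [if_pos hv, if_pos ⟨hv.1, hv.2.2⟩, htr v hv]
      push_cast
      have : (sysK F).N v = nm v := rfl
      rw [this]
      ring
    · rw [if_neg hv]
      by_cases h1 : (6 : 𝓞 F) ∉ v.asIdeal ∧ (ι P) ^ 3 - (ι Q) ^ 2 ∉ v.asIdeal
      · have h2 : d ∈ v.asIdeal := by
          by_contra h3
          exact hv ⟨h1.1, h3, h1.2⟩
        have h3 : chi d v = 0 := by
          unfold chi
          rw [Ideal.Quotient.eq_zero_iff_mem.2 h2]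
          simp
        rw [h3]
        simp
      · rw [if_neg h1, zero_mul]
  have o1 : (fun ε : ℝ => ((sysK F).E ε fun v => (tE (ι P) (ι Q) v * conj (w v)).re) -
      Real.log ‖LE M (3 / 2 + τ * I + ε)‖) =o[𝓝[>] 0] LL := by
    refine bdd_isLittleO ⟨C', ?_⟩
    filter_upwards [hC'] with ε h
    have h4 : ((sysK F).E ε fun p => (tE (ι P) (ι Q) p * conj (w p)).re) =
        ((sysK F).E ε fun p => (if Good p then
        (trc M p : ℂ) * ((Real.sqrt ((sysK F).N p) : ℝ) : ℂ)⁻¹ *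
          (((sysK F).N p : ℕ) : ℂ) ^ (-(τ * I)) else 0).re) := by
      congr 1
      funext v
      rw [hcoef v]
    rw [h4]
    exact h.2
  have o2 := corr_gen (K := K) (tE (ι P) (ι Q)) (tEH P Q) (b := 2) (fun v => norm_tE _ _ v)
    (fun p ψ => tE_ker ι P Q p ψ) d τ w (fun v => rfl)
  unfold Sy.IsSize
  refine (o2.sub o1).congr' ?_ (EventuallyEq.refl _ _)
  filter_upwards [LL_tendsto.eventually_gt_atTop 0] with ε hL
  have e1 : Real.log ‖LE M (3 / 2 + τ * I + ε)‖ / Real.log (1 / ε) * LL ε =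
      Real.log ‖LE M (3 / 2 + τ * I + ε)‖ := div_mul_cancel₀ _ hL.ne'
  have e2 : (syE P Q).corr (F := F) (fun _ => d) τ ε =
      (sysH K).E ε fun x : HX K => (tEH P Q x * conj (vq K d τ x)).re := by
    have e3 : (syE P Q).corr (F := F) (fun _ => d) τ ε =
        ∑ _j ∈ ({()} : Finset Unit), (sysH K).E ε fun x : HX K =>
          (tEH P Q x * conj (vq K (∏ _i ∈ ({0} : Finset (Fin 1)), d) τ x)).re := rfl
    rw [e3, Finset.sum_singleton, Finset.prod_singleton]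
  rw [e1, e2]
  ring

end

end Pool.Agent.W353.AB
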