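import Pool.Agent.H26.Lib.R_seed8.W353.AB.Stab
import Pool.Agent.H26.Lib.R_seed8.W353.TP.Kum

/-! Every family of twists over `F` is related to one over `F ∩ M`, all products at once. -/

set_option autoImplicit false

namespace Pool.Agent.W353.AB

open NumberField Pool.Agent.W353.TP
open Pool.Agent.H921R2.TatePole (exists_int_mul)

section
variable {K : Type} [Field K] [NumberField K]

theorem prod_symm {r : ℕ} (x : Fin r → Om K) (A B : Finset (Fin r)) :
    (∏ i ∈ B, x i) * ∏ i ∈ A, x i =
      (∏ i ∈ symmDiff B A, x i) * (∏ i ∈ B ∩ A, x i) ^ 2 := by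
  classical
  have h1 : ∏ i ∈ B, x i = (∏ i ∈ B \ A, x i) * ∏ i ∈ B ∩ A, x i := by
    rw [← Finset.prod_union (Finset.disjoint_sdiff_inter B A), Finset.sdiff_union_inter]
  have h2 : ∏ i ∈ A, x i = (∏ i ∈ A \ B, x i) * ∏ i ∈ B ∩ A, x i := by
    rw [Finset.inter_comm, ← Finset.prod_union (Finset.disjoint_sdiff_inter A B),
      Finset.sdiff_union_inter]
  have h3 : ∏ i ∈ symmDiff B A, x i = (∏ i ∈ B \ A, x i) * ∏ i ∈ A \ B, x i := by
    rw [symmDiff_def, Finset.sup_eq_union,
      Finset.prod_union (disjoint_sdiff_sdiff : Disjoint (B \ A) (A \ B))]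
  rw [h1, h2, h3]
  ring

/-- for every nonzero `x` only finitely many primes `q` are squares times `x` in `M` -/
theorem finite_primes (M : IntermediateField K (Om K)) [FiniteDimensional K M] {x : Om K}
    (hx : x ≠ 0) : {q : ℕ | q.Prime ∧ ∃ s ∈ M, s ^ 2 = (q : Om K) * x}.Finite := by
  classical
  have hMn : NumberField M := NumberField.of_module_finite K M
  by_cases hne : ∃ p : ℕ, p.Prime ∧ ∃ s ∈ M, s ^ 2 = (p : Om K) * x
  · obtain ⟨p, hp, s, hs, hsx⟩ := hne
    refine (finite_class M hp).subset ?_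
    rintro q ⟨hq, s', hs', hsx'⟩
    refine ⟨hq, ?_⟩
    have h0 : (p : Om K) ≠ 0 := by exact_mod_cast hp.ne_zero
    have h1 : s ≠ 0 := by
      rintro rfl
      rw [zero_pow two_ne_zero] at hsx
      exact mul_ne_zero h0 hx hsx.symm
    have h2 : (p : Om K) * s' / s ∈ M := div_mem (mul_mem (natCast_mem M p) hs') hs
    refine ⟨⟨_, h2⟩, Subtype.ext ?_⟩
    push_cast
    rw [div_pow, mul_pow, hsx', hsx]
    field_simp
  · have h : {q : ℕ | q.Prime ∧ ∃ s ∈ M, s ^ 2 = (q : Om K) * x} = ∅ := by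
      ext q
      simp only [Set.mem_ofPred_eq, Set.mem_empty_iff_false, iff_false]
      intro hq
      exact hne ⟨q, hq⟩
    rw [h]
    exact Set.finite_empty

theorem coe_prod {r : ℕ} {F : IntermediateField K (Om K)} (d : Fin r → 𝓞 F)
    (A : Finset (Fin r)) : ((((∏ i ∈ A, d i : 𝓞 F)) : F) : Om K) = ∏ i ∈ A, ((d i : F) : Om K) := by
  have h1 : (((∏ i ∈ A, d i : 𝓞 F)) : F) = ∏ i ∈ A, (d i : F) :=
    map_prod (algebraMap (𝓞 F) F) _ _
  rw [h1]
  exact map_prod F.val _ _

theorem exists_rel_sets {r : ℕ} (M : IntermediateField K (Om K)) [FiniteDimensional K M]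
    [Normal K M] (F F₀ : IntermediateField K (Om K)) [NumberField F] [NumberField F₀]
    (hF₀ : F₀ = F ⊓ M) (d : Fin r → 𝓞 F) (hd : ∀ i, d i ≠ 0) :
    ∃ e : Fin r → 𝓞 F₀, (∀ i, e i ≠ 0) ∧ ∀ A : Finset (Fin r),
      ((∃ u ∈ F, u ^ 2 = (∏ i ∈ A, ((d i : F) : Om K)) * ∏ i ∈ A, ((e i : F₀) : Om K)) ∧
        ∃ t ∈ M, t ^ 2 = ∏ i ∈ A, ((e i : F₀) : Om K)) ∨
      ((∀ y ∈ F ⊔ M, y ^ 2 ≠ ∏ i ∈ A, ((d i : F) : Om K)) ∧
        ∀ y ∈ M, y ^ 2 ≠ ∏ i ∈ A, ((e i : F₀) : Om K)) := by
  classical
  have hMn : NumberField M := NumberField.of_module_finite K M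
  set δ : Fin r → Om K := fun i => ((d i : F) : Om K) with hδ
  have hδF : ∀ A : Finset (Fin r), ∏ i ∈ A, δ i ∈ F := fun A => prod_mem fun i _ => (d i : F).2
  have hδ1 : ∀ i, δ i ≠ 0 := by
    intro i h
    apply hd i
    have h1 : (d i : F) = 0 := Subtype.ext h
    rwa [RingOfIntegers.coe_eq_zero_iff] at h1
  have hδ0 : ∀ A : Finset (Fin r), ∏ i ∈ A, δ i ≠ 0 := fun A =>
    Finset.prod_ne_zero_iff.2 fun i _ => hδ1 i
  have key : ∀ I : Finset (Fin r), ∃ e : Fin r → 𝓞 F₀, (∀ i, e i ≠ 0) ∧ ∀ A ⊆ I,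
      ((∃ u ∈ F, u ^ 2 = (∏ i ∈ A, δ i) * ∏ i ∈ A, ((e i : F₀) : Om K)) ∧
        ∃ t ∈ M, t ^ 2 = ∏ i ∈ A, ((e i : F₀) : Om K)) ∨
      ((∀ y ∈ F ⊔ M, y ^ 2 ≠ ∏ i ∈ A, δ i) ∧
        ∀ y ∈ M, y ^ 2 ≠ ∏ i ∈ A, ((e i : F₀) : Om K)) := by
    intro I
    induction I using Finset.induction_on with
    | empty =>
      refine ⟨fun _ => 1, fun _ => one_ne_zero, fun A hA => Or.inl ?_⟩
      rw [Finset.subset_empty.1 hA]
      exact ⟨⟨1, one_mem _, by simp⟩, 1, one_mem _, by simp⟩
    | insert a I ha ih =>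
      obtain ⟨e, he, hI⟩ := ih
      have he1 : ∀ i, ((e i : F₀) : Om K) ≠ 0 := by
        intro i h
        apply he i
        have h1 : (e i : F₀) = 0 := Subtype.ext h
        rwa [RingOfIntegers.coe_eq_zero_iff] at h1
      have he0 : ∀ A : Finset (Fin r), ∏ i ∈ A, ((e i : F₀) : Om K) ≠ 0 := fun A =>
        Finset.prod_ne_zero_iff.2 fun i _ => he1 i
      have heF₀ : ∀ A : Finset (Fin r), ∏ i ∈ A, ((e i : F₀) : Om K) ∈ F₀ := fun A =>
        prod_mem fun i _ => (e i : F₀).2
      have hF₀F : F₀ ≤ F := by rw [hF₀]; exact inf_le_left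
      have hF₀M : F₀ ≤ M := by rw [hF₀]; exact inf_le_right
      -- products over sets containing `a` after an update
      have hupd : ∀ (x : 𝓞 F₀) (A : Finset (Fin r)), a ∉ A →
          ∏ i ∈ A, ((Function.update e a x i : F₀) : Om K) = ∏ i ∈ A, ((e i : F₀) : Om K) := by
        intro x A haA
        refine Finset.prod_congr rfl fun i hi => ?_
        have hia : i ≠ a := by
          rintro rfl
          exact haA hi
        rw [Function.update_of_ne hia]
      have hupd' : ∀ (x : 𝓞 F₀) (A : Finset (Fin r)), a ∈ A →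
          ∏ i ∈ A, ((Function.update e a x i : F₀) : Om K) =
            ((x : F₀) : Om K) * ∏ i ∈ A.erase a, ((e i : F₀) : Om K) := by
        intro x A haA
        rw [← Finset.mul_prod_erase A _ haA, Function.update_self,
          hupd x (A.erase a) (Finset.notMem_erase a A)]
      have hdA : ∀ A : Finset (Fin r), a ∈ A →
          ∏ i ∈ A, δ i = δ a * ∏ i ∈ A.erase a, δ i := fun A haA =>
        (Finset.mul_prod_erase A _ haA).symm
      have hsub : ∀ A ⊆ insert a I, A.erase a ⊆ I := fun A hA => by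
        rw [Finset.subset_insert_iff] at hA
        exact hA
      by_cases hcase : ∃ B ⊆ I, ∃ y ∈ F ⊔ M, y ^ 2 = δ a * ∏ i ∈ B, δ i
      · obtain ⟨B, hB, y₀, hy₀, hy₀2⟩ := hcase
        obtain ⟨t, htM, ht0, htF, u, huF, hu⟩ := kummer F M
          (mul_mem (d a : F).2 (hδF B)) (mul_ne_zero (hδ1 a) (hδ0 B)) hy₀ hy₀2
        have h1 : t ^ 2 ∈ F₀ := by
          rw [hF₀]
          exact ⟨htF, pow_mem htM 2⟩
        obtain ⟨N, hN, α, hα⟩ := exists_int_mul F₀ ⟨t ^ 2, h1⟩
        have hα2 : ((((N : 𝓞 F₀) * α : 𝓞 F₀) : F₀) : Om K) = (N : Om K) ^ 2 * t ^ 2 := by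
          have h2 : (((N : 𝓞 F₀) * α : 𝓞 F₀) : F₀) = (N : F₀) * ((N : F₀) * ⟨t ^ 2, h1⟩) := by
            rw [← hα]
            push_cast
            rfl
          rw [h2]
          push_cast
          ring
        have hN0 : (N : Om K) ≠ 0 := by exact_mod_cast hN
        set x : 𝓞 F₀ := (N : 𝓞 F₀) * α * ∏ i ∈ B, e i with hx
        have hxo : ((x : F₀) : Om K) =
            (N : Om K) ^ 2 * t ^ 2 * ∏ i ∈ B, ((e i : F₀) : Om K) := by
          rw [← hα2, ← coe_prod, hx]
          rfl
        refine ⟨Function.update e a x, ?_, ?_⟩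
        · intro i
          by_cases hi : i = a
          · subst hi
            rw [Function.update_self]
            intro h
            rw [h] at hxo
            have h2 : ((((0 : 𝓞 F₀) : F₀)) : Om K) = 0 := rfl
            rw [h2] at hxo
            exact mul_ne_zero (mul_ne_zero (pow_ne_zero 2 hN0) (pow_ne_zero 2 ht0)) (he0 B)
              hxo.symm
          · rw [Function.update_of_ne hi]
            exact he i
        · intro A hA
          by_cases haA : a ∈ A
          · have hC : symmDiff B (A.erase a) ⊆ I := by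
              intro i hi
              rcases Finset.mem_symmDiff.1 hi with h | h
              · exact hB h.1
              · exact hsub A hA h.1
            have e1 := prod_symm δ (A.erase a) B
            have e2 := prod_symm (fun i => ((e i : F₀) : Om K)) (A.erase a) B
            have hX0 := hδ0 (B ∩ A.erase a)
            have hX1 := he0 (B ∩ A.erase a)
            have hdB := hδ0 B
            have heB := he0 B
            rw [hupd' x A haA, hdA A haA, hxo]
            rcases hI _ hC with ⟨⟨u', huF', hu'⟩, t', htM', ht'⟩ | ⟨h3, h4⟩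
            · left
              refine ⟨⟨N * u * u' * (∏ i ∈ B ∩ A.erase a, δ i) *
                (∏ i ∈ B ∩ A.erase a, ((e i : F₀) : Om K)) / ∏ i ∈ B, δ i, ?_, ?_⟩,
                N * t * t' * ∏ i ∈ B ∩ A.erase a, ((e i : F₀) : Om K), ?_, ?_⟩
              · refine div_mem (mul_mem (mul_mem (mul_mem (mul_mem ?_ huF) huF') (hδF _)) ?_)
                  (hδF B)
                · exact intCast_mem F N
                · exact hF₀F (heF₀ _)
              · have e3 : (δ a * ∏ i ∈ A.erase a, δ i) * ((N : Om K) ^ 2 * t ^ 2 *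
                    (∏ i ∈ B, ((e i : F₀) : Om K)) * ∏ i ∈ A.erase a, ((e i : F₀) : Om K)) =
                    (N : Om K) ^ 2 * (δ a * (∏ i ∈ B, δ i) * t ^ 2) *
                    ((∏ i ∈ B, δ i) * ∏ i ∈ A.erase a, δ i) *
                    ((∏ i ∈ B, ((e i : F₀) : Om K)) * ∏ i ∈ A.erase a, ((e i : F₀) : Om K)) /
                    (∏ i ∈ B, δ i) ^ 2 := by
                  field_simp
                rw [e3, e1, e2, ← hu, div_pow, mul_pow, mul_pow, mul_pow, mul_pow, hu']
                ring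
              · refine mul_mem (mul_mem (mul_mem ?_ htM) htM') (hF₀M (heF₀ _))
                exact intCast_mem M N
              · have e3 : (N : Om K) ^ 2 * t ^ 2 * (∏ i ∈ B, ((e i : F₀) : Om K)) *
                    ∏ i ∈ A.erase a, ((e i : F₀) : Om K) = (N : Om K) ^ 2 * t ^ 2 *
                    ((∏ i ∈ B, ((e i : F₀) : Om K)) *
                      ∏ i ∈ A.erase a, ((e i : F₀) : Om K)) := by ring
                rw [e3, e2, mul_pow, mul_pow, mul_pow, ht']
                ring
            · right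
              refine ⟨fun y hy hy2 => ?_, fun y hy hy2 => ?_⟩
              · refine h3 (y * y₀ / (δ a * ∏ i ∈ B ∩ A.erase a, δ i)) ?_ ?_
                · refine div_mem (mul_mem hy hy₀) ((le_sup_left : F ≤ F ⊔ M) ?_)
                  exact mul_mem (d a : F).2 (hδF _)
                · have hda := hδ1 a
                  have e3 : (δ a * ∏ i ∈ A.erase a, δ i) * (δ a * ∏ i ∈ B, δ i) =
                      δ a ^ 2 * ((∏ i ∈ B, δ i) * ∏ i ∈ A.erase a, δ i) := by ring
                  rw [div_pow, mul_pow, mul_pow, hy2, hy₀2, e3, e1]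
                  field_simp
              · refine h4 (y / (N * t * ∏ i ∈ B ∩ A.erase a, ((e i : F₀) : Om K))) ?_ ?_
                · refine div_mem hy (mul_mem (mul_mem ?_ htM) (hF₀M (heF₀ _)))
                  exact intCast_mem M N
                · have e3 : (N : Om K) ^ 2 * t ^ 2 * (∏ i ∈ B, ((e i : F₀) : Om K)) *
                      ∏ i ∈ A.erase a, ((e i : F₀) : Om K) = (N : Om K) ^ 2 * t ^ 2 *
                      ((∏ i ∈ B, ((e i : F₀) : Om K)) *
                        ∏ i ∈ A.erase a, ((e i : F₀) : Om K)) := by ring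
                  rw [div_pow, hy2, e3, e2]
                  field_simp
          · rw [hupd x A haA]
            exact hI A ((Finset.subset_insert_iff_of_notMem haA).1 hA)
      · push Not at hcase
        have hfin : (⋃ A ∈ (Finset.univ : Finset (Finset (Fin r))),
            {q : ℕ | q.Prime ∧ ∃ s ∈ M, s ^ 2 = (q : Om K) *
              ∏ i ∈ A, ((e i : F₀) : Om K)}).Finite :=
          Set.Finite.biUnion (Finset.finite_toSet _) fun A _ => finite_primes M (he0 A)
        obtain ⟨q, hq1, hq2⟩ := Nat.infinite_setOfPred_prime.exists_notMem_finite hfin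
        have hq3 : ∀ (A : Finset (Fin r)), ∀ s ∈ M, s ^ 2 ≠ (q : Om K) *
            ∏ i ∈ A, ((e i : F₀) : Om K) := by
          intro A s hs hs2
          apply hq2
          rw [Set.mem_iUnion₂]
          exact ⟨A, Finset.mem_coe.2 (Finset.mem_univ A), hq1, s, hs, hs2⟩
        have hqo : ((((q : 𝓞 F₀) : F₀)) : Om K) = q := by
          push_cast
          rfl
        refine ⟨Function.update e a (q : 𝓞 F₀), ?_, ?_⟩
        · intro i
          by_cases hi : i = a
          · subst hi
            rw [Function.update_self]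
            have : (q : ℕ) ≠ 0 := Nat.Prime.ne_zero hq1
            exact_mod_cast this
          · rw [Function.update_of_ne hi]
            exact he i
        · intro A hA
          by_cases haA : a ∈ A
          · right
            rw [hupd' _ A haA, hdA A haA, hqo]
            exact ⟨fun y hy => hcase _ (hsub A hA) y hy, fun y hy => hq3 _ y hy⟩
          · rw [hupd _ A haA]
            exact hI A ((Finset.subset_insert_iff_of_notMem haA).1 hA)
  obtain ⟨e, he, hI⟩ := key Finset.univ
  exact ⟨e, he, fun A => hI A (Finset.subset_univ A)⟩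

theorem exists_rel (𝒮 : Sy K) (M : IntermediateField K (Om K)) [FiniteDimensional K M]
    [Normal K M] (F F₀ : IntermediateField K (Om K)) [NumberField F] [NumberField F₀]
    (hF₀ : F₀ = F ⊓ M) (d : Fin 𝒮.r → 𝓞 F) (hd : ∀ i, d i ≠ 0) :
    ∃ e : Fin 𝒮.r → 𝓞 F₀, (∀ i, e i ≠ 0) ∧ Rel 𝒮 M d e := by
  obtain ⟨e, he, h⟩ := exists_rel_sets M F F₀ hF₀ d hd
  refine ⟨e, he, fun j _ => ?_⟩
  rw [prA_eq, prA_eq]
  exact h (𝒮.A j)

end

end Pool.Agent.W353.AB
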