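import Pool.Agent.H26.Lib.R_seed8.W353.AB.VD
import Pool.Agent.H26.Lib.R_seed8.W353.TP.Deg

/-! One finite extension governs the sizes over all extensions of bounded degree. -/

set_option autoImplicit false

namespace Pool.Agent.W353.AB

open Complex Filter Topology ComplexConjugate NumberField IsDedekindDomain Pool.Agent.H341R2
  Asymptotics Pool.Agent.W353.TP

section
variable {K : Type} [Field K] [NumberField K] {𝒮 : Sy K}

/-- the twist of a component, as an element of the algebraic closure -/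
noncomputable def prA (𝒮 : Sy K) {F : IntermediateField K (Om K)} (d : Fin 𝒮.r → 𝓞 F)
    (j : 𝒮.ι) : Om K := (((𝒮.D d j : 𝓞 F) : F) : Om K)

theorem map_D {G : Type} [Field G] [Algebra K G] (g : G →ₐ[K] Om K) (c : Fin 𝒮.r → 𝓞 G)
    (j : 𝒮.ι) : g ((𝒮.D c j : 𝓞 G) : G) = ∏ i ∈ 𝒮.A j, g (c i : G) := by
  unfold Sy.D
  rw [← map_prod]
  congr 1
  exact map_prod (algebraMap (𝓞 G) G) _ _

theorem prA_eq {F : IntermediateField K (Om K)} (d : Fin 𝒮.r → 𝓞 F) (j : 𝒮.ι) :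
    prA 𝒮 d j = ∏ i ∈ 𝒮.A j, ((d i : F) : Om K) := map_D F.val d j

/-- everything is defined over `M` -/
def InM (M : IntermediateField K (Om K)) (A : Co 𝒮) : Prop :=
  ∀ b, (A.m b).F ≤ M ∧ ∀ i, ∃ s ∈ M, s ^ 2 = (((A.m b).d i : (A.m b).F) : Om K)

/-- the combinations agree in the eyes of `M` -/
def Cmp (𝒮 : Sy K) (M : IntermediateField K (Om K)) (F F₀ : Type) [Field F] [NumberField F]
    [Algebra K F] [Field F₀] [NumberField F₀] [Algebra K F₀] (d : Fin 𝒮.r → 𝓞 F)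
    (e : Fin 𝒮.r → 𝓞 F₀) (t : ℤ) : Prop :=
  ∀ (G : Type) [Field G] [NumberField G] [Algebra K G] (g : G →ₐ[K] Om K),
    g.fieldRange ≤ M → ∀ c : Fin 𝒮.r → 𝓞 G, (∀ i, c i ≠ 0) →
    (∀ i, ∃ s ∈ M, s ^ 2 = g (c i : G)) → ∀ j ∈ 𝒮.P,
      (inum K G F ((𝒮.D c j : 𝓞 G) : G) ((𝒮.D d j : 𝓞 F) : F) : ℤ) +
        t * inum K G F₀ ((𝒮.D c j : 𝓞 G) : G) ((𝒮.D e j : 𝓞 F₀) : F₀) = 0

theorem ip_two_eq_zero (M : IntermediateField K (Om K)) (A : Co 𝒮)
    (hA : InM M A) {τ : ℝ} (D D₀ : Dt 𝒮 τ) (t : ℤ) (h : Cmp 𝒮 M D.F D₀.F D.d D₀.d t) :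
    ip A (Co.two D D₀ t) = 0 := by
  classical
  by_cases hτ : A.τ = τ
  · unfold ip
    refine Finset.sum_eq_zero fun b _ => ?_
    rw [Fintype.sum_bool]
    change (A.s b : ℝ) * (t : ℝ) * GG (A.m b) D₀ + (A.s b : ℝ) * ((1 : ℤ) : ℝ) * GG (A.m b) D = 0
    unfold GG
    rw [G_eq, G_eq]
    simp only [if_pos hτ]
    have h1 : ∀ j ∈ 𝒮.P,
        (inum K (A.m b).F D.F ((𝒮.D (A.m b).d j : 𝓞 (A.m b).F) : (A.m b).F)
          ((𝒮.D D.d j : 𝓞 D.F) : D.F) : ℝ) + t * inum K (A.m b).F D₀.F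
          ((𝒮.D (A.m b).d j : 𝓞 (A.m b).F) : (A.m b).F)
          ((𝒮.D D₀.d j : 𝓞 D₀.F) : D₀.F) = 0 := by
      intro j hj
      have := h (A.m b).F (A.m b).F.val (by rw [IntermediateField.fieldRange_val]; exact (hA b).1)
        (A.m b).d (A.m b).hd (hA b).2 j hj
      exact_mod_cast this
    have e2 : (A.s b : ℝ) * ∑ j ∈ 𝒮.P, 𝒮.b j *
        ((inum K (A.m b).F D.F ((𝒮.D (A.m b).d j : 𝓞 (A.m b).F) : (A.m b).F)
          ((𝒮.D D.d j : 𝓞 D.F) : D.F) : ℝ) + t * inum K (A.m b).F D₀.F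
          ((𝒮.D (A.m b).d j : 𝓞 (A.m b).F) : (A.m b).F)
          ((𝒮.D D₀.d j : 𝓞 D₀.F) : D₀.F)) = 0 := by
      rw [Finset.sum_eq_zero, mul_zero]
      intro j hj
      rw [h1 j hj, mul_zero]
    rw [← e2]
    simp only [mul_add, Finset.sum_add_distrib, Finset.mul_sum]
    rw [add_comm]
    congr 1
    · refine Finset.sum_congr rfl fun j _ => ?_
      push_cast
      ring
    · refine Finset.sum_congr rfl fun j _ => ?_
      ring
  · exact ip_tau A _ hτ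

/-- the field of definition of a finite family -/
theorem exists_field (T : Finset (Co 𝒮)) (n : ℕ) : ∃ M : IntermediateField K (Om K),
    FiniteDimensional K M ∧ Normal K M ∧ (∀ A ∈ T, InM M A) ∧
    ((∀ A ∈ T, (A.m true).F ≤ (A.m false).F ∧ Module.finrank K (A.m false).F ≤ n) →
      Module.finrank K M ≤ (4 ^ 𝒮.r * n).factorial ^ T.card) := by
  classical
  have hsq : ∀ x : Om K, ∃ s : Om K, s ^ 2 = x := fun x => by
    obtain ⟨s, hs⟩ := IsAlgClosed.exists_pow_nat_eq x (by norm_num : 0 < 2)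
    exact ⟨s, hs⟩
  choose sq hsq using hsq
  let tt' : Co 𝒮 → Bool × Fin 𝒮.r → Om K := fun A p =>
    sq (((A.m p.1).d p.2 : (A.m p.1).F) : Om K)
  let W : Co 𝒮 → IntermediateField K (Om K) := fun A => (A.m false).F ⊔ (A.m true).F ⊔
    IntermediateField.adjoin K (tt' A '' (Finset.univ : Finset (Bool × Fin 𝒮.r)))
  have hfin1 : ∀ A : Co 𝒮, FiniteDimensional K (IntermediateField.adjoin K
      (tt' A '' (Finset.univ : Finset (Bool × Fin 𝒮.r))) : IntermediateField K (Om K)) := by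
    intro A
    have : Finite (tt' A '' (Finset.univ : Finset (Bool × Fin 𝒮.r)) : Set (Om K)) :=
      Set.Finite.to_subtype (Set.Finite.image _ (Finset.finite_toSet _))
    refine IntermediateField.finiteDimensional_adjoin fun x _ => ?_
    exact Algebra.IsIntegral.isIntegral x
  have hfin2 : ∀ (A : Co 𝒮) b, FiniteDimensional K (A.m b).F := fun A b => inferInstance
  have hfin : ∀ A, FiniteDimensional K (W A) := fun A =>
    have : FiniteDimensional K ((A.m false).F ⊔ (A.m true).F : IntermediateField K (Om K)) :=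
      IntermediateField.finiteDimensional_sup _ _
    IntermediateField.finiteDimensional_sup _ _
  obtain ⟨M, hM1, hM2, hM3, hM4⟩ := exists_normal W hfin T
  refine ⟨M, hM1, hM2, ?_, ?_⟩
  · intro A hA b
    have h1 : W A ≤ M := hM3 A hA
    have h2 : (A.m false).F ⊔ (A.m true).F ≤ M := le_sup_left.trans h1
    refine ⟨?_, fun i => ⟨sq (((A.m b).d i : (A.m b).F) : Om K), ?_, hsq _⟩⟩
    · cases b
      · exact le_sup_left.trans h2
      · exact le_sup_right.trans h2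
    · have h3 : IntermediateField.adjoin K
          (tt' A '' (Finset.univ : Finset (Bool × Fin 𝒮.r))) ≤ M := le_sup_right.trans h1
      exact h3 (IntermediateField.subset_adjoin K _
        ⟨(b, i), Finset.mem_coe.2 (Finset.mem_univ _), rfl⟩)
  · intro hQ
    refine hM4 _ fun A hA => ?_
    obtain ⟨h1, h2⟩ := hQ A hA
    have h3 : W A = (A.m false).F ⊔ IntermediateField.adjoin K
        (tt' A '' (Finset.univ : Finset (Bool × Fin 𝒮.r))) := by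
      change (A.m false).F ⊔ (A.m true).F ⊔ _ = _
      rw [sup_eq_left.2 h1]
    rw [h3]
    refine (sqrt_adj (A.m false).F (tt' A) ?_ Finset.univ).trans ?_
    · rintro ⟨b, i⟩
      change sq _ ^ 2 ∈ (A.m false).F
      rw [hsq]
      cases b
      · exact ((A.m false).d i : (A.m false).F).2
      · exact h1 ((A.m true).d i : (A.m true).F).2
    · rw [Finset.card_univ, Fintype.card_prod, Fintype.card_bool, Fintype.card_fin, pow_mul]
      exact Nat.mul_le_mul_left _ h2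

theorem D_coe_ne {G : Type} [Field G] {c : Fin 𝒮.r → 𝓞 G} (hc : ∀ i, c i ≠ 0) (j : 𝒮.ι) :
    ((𝒮.D c j : 𝓞 G) : G) ≠ 0 := by
  rw [Ne, RingOfIntegers.coe_eq_zero_iff]
  exact 𝒮.D_ne hc j

theorem sq_prod {G : Type} [Field G] [Algebra K G] {M : IntermediateField K (Om K)}
    (g : G →ₐ[K] Om K) (c : Fin 𝒮.r → 𝓞 G) (hs : ∀ i, ∃ s ∈ M, s ^ 2 = g (c i : G))
    (j : 𝒮.ι) : ∃ s ∈ M, s ^ 2 = g ((𝒮.D c j : 𝓞 G) : G) := by
  choose s hs1 hs2 using hs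
  refine ⟨∏ i ∈ 𝒮.A j, s i, prod_mem fun i _ => hs1 i, ?_⟩
  rw [map_D, ← Finset.prod_pow]
  exact Finset.prod_congr rfl fun i _ => hs2 i

/-- new twists are orthogonal to `M` -/
theorem new_zero (M : IntermediateField K (Om K)) [Normal K M] (F : IntermediateField K (Om K))
    [NumberField F] {d : Fin 𝒮.r → 𝓞 F} (hd : ∀ i, d i ≠ 0) (j : 𝒮.ι)
    (h : ∀ y ∈ F ⊔ M, y ^ 2 ≠ prA 𝒮 d j) (G : Type) [Field G] [NumberField G] [Algebra K G]
    (g : G →ₐ[K] Om K) (hg : g.fieldRange ≤ M) (c : Fin 𝒮.r → 𝓞 G) (hc : ∀ i, c i ≠ 0)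
    (hs : ∀ i, ∃ s ∈ M, s ^ 2 = g (c i : G)) :
    inum K G F ((𝒮.D c j : 𝓞 G) : G) ((𝒮.D d j : 𝓞 F) : F) = 0 := by
  rw [inum_comm' (𝒮.D_ne hc j) (𝒮.D_ne hd j)]
  obtain ⟨s, hs1, hs2⟩ := sq_prod g c hs j
  refine inum_eq_zero M F.val g hg (D_coe_ne hc j) hs1 hs2 ?_
  rw [IntermediateField.fieldRange_val]
  exact h

/-- old twists only depend on `F ∩ M` -/
theorem old_eq (M : IntermediateField K (Om K)) [FiniteDimensional K M] [Normal K M]
    (F F₀ : IntermediateField K (Om K)) [NumberField F] [NumberField F₀] (hF₀ : F₀ = F ⊓ M)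
    {d : Fin 𝒮.r → 𝓞 F} {e : Fin 𝒮.r → 𝓞 F₀} (hd : ∀ i, d i ≠ 0) (he : ∀ i, e i ≠ 0)
    (j : 𝒮.ι) (hu : ∃ u ∈ F, u ^ 2 = prA 𝒮 d j * prA 𝒮 e j)
    (ht : ∃ t ∈ M, t ^ 2 = prA 𝒮 e j)
    (G : Type) [Field G] [NumberField G] [Algebra K G]
    (g : G →ₐ[K] Om K) (hg : g.fieldRange ≤ M) (c : Fin 𝒮.r → 𝓞 G) (hc : ∀ i, c i ≠ 0)
    (hs : ∀ i, ∃ s ∈ M, s ^ 2 = g (c i : G)) :
    inum K G F ((𝒮.D c j : 𝓞 G) : G) ((𝒮.D d j : 𝓞 F) : F) =
      inum K G F₀ ((𝒮.D c j : 𝓞 G) : G) ((𝒮.D e j : 𝓞 F₀) : F₀) := by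
  rw [inum_comm' (𝒮.D_ne hc j) (𝒮.D_ne hd j), inum_comm' (𝒮.D_ne hc j) (𝒮.D_ne he j)]
  obtain ⟨s, hs1, hs2⟩ := sq_prod g c hs j
  obtain ⟨t, ht1, ht2⟩ := ht
  obtain ⟨u, hu1, hu2⟩ := hu
  exact inum_inf M F.val F₀.val (by rw [IntermediateField.fieldRange_val,
    IntermediateField.fieldRange_val, hF₀]) g hg (D_coe_ne hd j) (D_coe_ne he j) hs1 hs2 ht1 ht2
    (by rw [IntermediateField.fieldRange_val]; exact hu1) hu2

/-- the relation between twists over `F` and twists over `F ∩ M` -/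
def Rel (𝒮 : Sy K) (M : IntermediateField K (Om K)) {F F₀ : IntermediateField K (Om K)}
    (d : Fin 𝒮.r → 𝓞 F) (e : Fin 𝒮.r → 𝓞 F₀) : Prop :=
  ∀ j ∈ 𝒮.P, ((∃ u ∈ F, u ^ 2 = prA 𝒮 d j * prA 𝒮 e j) ∧ ∃ t ∈ M, t ^ 2 = prA 𝒮 e j) ∨
    ((∀ y ∈ F ⊔ M, y ^ 2 ≠ prA 𝒮 d j) ∧ ∀ y ∈ M, y ^ 2 ≠ prA 𝒮 e j)

/-- **Stabilisation.** -/
theorem stab (n k m N : ℕ) (hN : (N : ℝ) = ∑ j ∈ 𝒮.P, 𝒮.b j)
    (U : Ultrafilter ℝ) (hU : (U : Filter ℝ) ≤ 𝓝[>] 0) (Q : Co 𝒮 → Prop) :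
    ∃ (M : IntermediateField K (Om K)) (Θ : Finset ℝ), FiniteDimensional K M ∧ Normal K M ∧
      Θ.card ≤ 2 * n * (k * N) ^ 2 ∧
      ((∀ A, Q A → (A.m true).F ≤ (A.m false).F ∧ Module.finrank K (A.m false).F ≤ m) →
        Module.finrank K M ≤ (4 ^ 𝒮.r * m).factorial ^ (2 * n * (k * N) ^ 2)) ∧
      (∀ (τ : ℝ) (D : Dt 𝒮 τ), Bd 𝒮 n D.F D.d → Q (Co.two D D 0) →
        (τ ∉ Θ ∨ ∀ j ∈ 𝒮.P, ∀ y ∈ D.F ⊔ M, y ^ 2 ≠ prA 𝒮 D.d j) →
        k * |ul U D.X| < 1) ∧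
      (∀ (τ : ℝ) (D D₀ : Dt 𝒮 τ), D₀.F = D.F ⊓ M → Bd 𝒮 n D.F D.d →
        Bd 𝒮 n D₀.F D₀.d → Q (Co.two D D₀ (-1)) → Rel 𝒮 M D.d D₀.d →
        k * |ul U D.X - ul U D₀.X| < 1) := by
  classical
  obtain ⟨T, hTc, hTQ, hT⟩ := exists_max U hU Q (2 * n) k N hN
  obtain ⟨M, hM1, hM2, hM, hM3⟩ := exists_field T m
  refine ⟨M, T.image fun A => A.τ, hM1, hM2, Finset.card_image_le.trans hTc, ?_, ?_, ?_⟩
  · intro hQ
    refine (hM3 fun A hA => hQ A (hTQ A hA)).trans ?_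
    exact Nat.pow_le_pow_right (Nat.factorial_pos _) hTc
  · intro τ D hB hQ hcond
    by_contra hne
    push Not at hne
    refine hT (Co.two D D 0) ⟨?_, ip_two_self n N hN D D 0 (Or.inl rfl) hB hB, hQ⟩ ?_
    · have e1 : (Co.two D D 0).val U = ul U D.X := by
        unfold Co.val
        rw [Fintype.sum_bool]
        change ((0 : ℤ) : ℝ) * ul U D.X + ((1 : ℤ) : ℝ) * ul U D.X = _
        push_cast
        ring
      rw [e1]
      exact hne
    · intro A hA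
      rw [ip_symm (Co.two D D 0) A, and_self]
      rcases hcond with hτ | hcond
      · refine ip_tau A _ fun h => hτ ?_
        rw [Finset.mem_image]
        exact ⟨A, hA, h⟩
      · refine ip_two_eq_zero M A (hM A hA) D D 0 ?_
        intro G _ _ _ g hg c hc hs j hj
        rw [new_zero M D.F D.hd j (hcond j hj) G g hg c hc hs]
        simp
  · intro τ D D₀ hFF hB hB' hQ hcond
    by_contra hne
    push Not at hne
    refine hT (Co.two D D₀ (-1)) ⟨?_, ip_two_self n N hN D D₀ (-1) (Or.inr rfl) hB hB', hQ⟩ ?_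
    · have e1 : (Co.two D D₀ (-1)).val U = ul U D.X - ul U D₀.X := by
        unfold Co.val
        rw [Fintype.sum_bool]
        change ((-1 : ℤ) : ℝ) * ul U D₀.X + ((1 : ℤ) : ℝ) * ul U D.X = _
        push_cast
        ring
      rw [e1]
      exact hne
    · intro A hA
      rw [ip_symm (Co.two D D₀ (-1)) A, and_self]
      refine ip_two_eq_zero M A (hM A hA) D D₀ (-1) ?_
      intro G _ _ _ g hg c hc hs j hj
      rcases hcond j hj with ⟨h1, h2⟩ | ⟨h1, h2⟩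
      · rw [old_eq M D.F D₀.F hFF D.hd D₀.hd j h1 h2 G g hg c hc hs]
        ring
      · have hFM : D₀.F ⊔ M = M := by
          rw [hFF]
          exact sup_eq_right.2 inf_le_right
        rw [new_zero M D.F D.hd j h1 G g hg c hc hs,
          new_zero M D₀.F D₀.hd j (by rw [hFM]; exact h2) G g hg c hc hs]
        simp

end

end Pool.Agent.W353.AB
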